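import Pool.Agent.Helper83.CK.St

/-!
# Project CK, module B: a Bernstein colouring of the infinite subsets of the natural numbers
-/

set_option autoImplicit false

namespace Pool.Agent.Helper29.CK

open Pool.Agent.Helper83.CK Cardinal

/-- all even numbers and the odd numbers `2n+1` with `n ∈ S` -/
def eo (S : Set ℕ) : Set ℕ := {k | k % 2 = 0 ∨ k / 2 ∈ S}

theorem eo_inf (S : Set ℕ) : (eo S).Infinite := by
  apply Set.infinite_of_injective_forall_mem (f := fun n : ℕ => 2 * n)
  · intro a b hab
    have : 2 * a = 2 * b := hab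
    omega
  · intro n
    left
    show 2 * n % 2 = 0
    omega

theorem eo_inj : Function.Injective eo := by
  intro S T h
  ext n
  have h1 : (2 * n + 1 ∈ eo S) ↔ (2 * n + 1 ∈ eo T) := by rw [h]
  have h2 : (2 * n + 1) % 2 = 1 := by omega
  have h3 : (2 * n + 1) / 2 = n := by omega
  simpa [eo, h2, h3] using h1

theorem mB : StI.{0} → StB := by
  intro hI
  classical
  let I : Type := {w : Set ℕ // w.Infinite} × (ℕ → Bool)
  let F : I → Set (Set ℕ) := fun p => {v | v ⊆ p.1.1 ∧ v.Infinite}
  have hBool : #(ℕ → Bool) = 𝔠 := by simp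
  have hSet : #(Set ℕ) = 𝔠 := by simp
  have h1 : ℵ₀ ≤ #I := by
    have hinj : Function.Injective (fun y : ℕ → Bool => ((⟨Set.univ, Set.infinite_univ⟩, y) : I)) := by
      intro a b hab
      exact (Prod.mk.inj hab).2
    have := Cardinal.mk_le_of_injective hinj
    rw [hBool] at this
    exact Cardinal.aleph0_le_continuum.trans this
  have h2 : #I ≤ 𝔠 := by
    have hinj : Function.Injective (fun p : I => ((p.1.1, p.2) : Set ℕ × (ℕ → Bool))) := by
      intro a b hab
      have h := Prod.mk.inj hab
      exact Prod.ext (Subtype.ext h.1) h.2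
    have h4 : #(Set ℕ × (ℕ → Bool)) = 𝔠 := by
      rw [Cardinal.mk_prod, Cardinal.lift_id, Cardinal.lift_id, hSet, hBool, Cardinal.continuum_mul_self]
    exact (Cardinal.mk_le_of_injective hinj).trans h4.le
  have h3 : ∀ p : I, #I ≤ #(F p) := by
    intro p
    refine h2.trans ?_
    rw [← hSet]
    let e := Set.Infinite.natEmbedding p.1.1 p.1.2
    have he : Function.Injective (fun k => (e k : ℕ)) := fun a b hab => e.injective (Subtype.ext hab)
    refine Cardinal.mk_le_of_injective (f := fun S : Set ℕ =>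
      (⟨(fun k => (e k : ℕ)) '' eo S, ?_, ?_⟩ : F p)) ?_
    · rintro _ ⟨k, -, rfl⟩
      exact (e k).2
    · exact (eo_inf S).image he.injOn
    · intro S T hST
      have h := congrArg Subtype.val hST
      exact eo_inj (he.image_injective h)
  obtain ⟨v, hv, hvF⟩ := hI I (Set ℕ) F h1 h3
  refine ⟨fun s => if h : ∃ p : I, v p = s then (Classical.choose h).2 else fun _ => false, ?_⟩
  intro w hw y
  have hmem := hvF (⟨w, hw⟩, y)
  refine ⟨v (⟨w, hw⟩, y), hmem.1, hmem.2, ?_⟩
  have hex : ∃ p : I, v p = v (⟨w, hw⟩, y) := ⟨_, rfl⟩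
  have hch : Classical.choose hex = ((⟨w, hw⟩, y) : I) := hv (Classical.choose_spec hex)
  show (if h : ∃ p : I, v p = v (⟨w, hw⟩, y) then (Classical.choose h).2 else fun _ => false) = y
  rw [dif_pos hex, hch]

end Pool.Agent.Helper29.CK
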