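import Pool.Agent.Helper83.CK.St

/-!
# Project CK, module L: limit cardinals
-/

set_option autoImplicit false

namespace Pool.Agent.Helper29.CK

open Pool.Agent.Helper83.CK Cardinal

universe u

theorem mL : StQ.{u} → StL.{u} := by
  intro hQ m α K hK hlim hα hC
  obtain ⟨h, hh⟩ := hQ m α K hK.le hα
  have hinj : Function.Injective (fun (n k : ℕ) => decide (k = n)) := by
    intro a b hab
    have := congrFun hab a
    simpa using this
  obtain ⟨A, hcl, hKA, hAK⟩ := hC (fun i x => h (Function.invFun (fun (n k : ℕ) => decide (k = n)) i) x)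
  have h1 : ∀ (j : ℕ) (x : ℕ → α), (∀ n, x n ∈ A) → h j x ∈ A := by
    intro j x hx
    obtain ⟨i, hi⟩ := Function.invFun_surjective hinj j
    have := hcl i x hx
    simp only [hi] at this
    exact this
  have h2 := hh A h1
  have h3 : ∀ (n : ℕ) (c : Cardinal.{u}), c < #K → Order.succ^[n] c < #K := by
    intro n
    induction n with
    | zero => intro c hc; exact hc
    | succ n ih => intro c hc; exact ih _ (hlim c hc)
  have h4 := h3 m _ (max_lt hK hAK)
  exact absurd (hKA.trans h2) (not_le.2 h4)

end Pool.Agent.Helper29.CK
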